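import Pool.Agent.H516.GTQ1.Null

/-! # MP_cc494f_an, Q1: for every generalized Takagi function in the class `𝒯_v`, almost every
level set is finite. -/

open MeasureTheory Set Filter Topology

namespace Pool.Agent.Results.MP_cc494f_an.AeFiniteLevelSets

/-- `φ(u) = dist(u, ℤ)`, the distance from `u` to the nearest integer. -/
noncomputable def φ (u : ℝ) : ℝ := |u - round u|

/-- `ω` is a sequence of sign functions `ω_n : [0,1] → {-1, 1}` such that `ω_n` is constant on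
each dyadic interval `[j 2^{-n}, (j+1) 2^{-n})`, `j = 0, …, 2^n - 1`. -/
def IsDyadicSigns (ω : ℕ → Icc (0:ℝ) 1 → ℝ) : Prop :=
  (∀ n x, ω n x = 1 ∨ ω n x = -1) ∧
    ∀ n j : ℕ, j < 2 ^ n → ∀ x x' : Icc (0:ℝ) 1,
      (x : ℝ) ∈ Ico ((j:ℝ) / 2 ^ n) (((j:ℝ) + 1) / 2 ^ n) →
      (x' : ℝ) ∈ Ico ((j:ℝ) / 2 ^ n) (((j:ℝ) + 1) / 2 ^ n) → ω n x = ω n x'

/-- The class `𝒯_v` of all `f : [0,1] → ℝ` of the form
`f(x) = ∑_{n ≥ 0} 2^{-n} ω_n(x) φ(2^n x)` with `ω` as in `IsDyadicSigns`. -/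
def Tv : Set (Icc (0:ℝ) 1 → ℝ) :=
  {f | ∃ ω : ℕ → Icc (0:ℝ) 1 → ℝ, IsDyadicSigns ω ∧
    ∀ x : Icc (0:ℝ) 1, HasSum (fun n : ℕ => ((2:ℝ) ^ n)⁻¹ * ω n x * φ ((2:ℝ) ^ n * x)) (f x)}

open Classical in
/-- the sign array of `ω` -/
noncomputable def arr (ω : ℕ → Icc (0:ℝ) 1 → ℝ) (n : ℕ) (j : ℤ) : ℤ :=
  if h : (j:ℝ) / 2 ^ n ∈ Icc (0:ℝ) 1 then (if ω n ⟨(j:ℝ) / 2 ^ n, h⟩ = 1 then 1 else -1) else 1

theorem arr_sgn (ω : ℕ → Icc (0:ℝ) 1 → ℝ) : R109.GT.Sgn (arr ω) := by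
  intro n j
  unfold arr
  split_ifs <;> simp

theorem arr_eq (ω : ℕ → Icc (0:ℝ) 1 → ℝ) (hω : IsDyadicSigns ω) (n : ℕ) (x : Icc (0:ℝ) 1)
    (hx : (x:ℝ) < 1) : ω n x = (arr ω n ⌊(2:ℝ) ^ n * x⌋ : ℝ) := by
  have hp : (0:ℝ) < 2 ^ n := by positivity
  have hx0 : 0 ≤ (x:ℝ) := x.2.1
  set j : ℤ := ⌊(2:ℝ) ^ n * x⌋ with hj
  have hj0 : 0 ≤ j := Int.floor_nonneg.mpr (by positivity)
  have h1 : (j:ℝ) ≤ 2 ^ n * x := Int.floor_le _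
  have h2 : (2:ℝ) ^ n * x < j + 1 := Int.lt_floor_add_one _
  have hjR : (0:ℝ) ≤ (j:ℝ) := by exact_mod_cast hj0
  have hjx : (j:ℝ) / 2 ^ n ≤ x := by rw [div_le_iff₀ hp, mul_comm]; exact h1
  have hmem : (j:ℝ) / 2 ^ n ∈ Icc (0:ℝ) 1 := ⟨by positivity, by linarith⟩
  have hcast : ((j.toNat : ℕ) : ℝ) = (j:ℝ) := by
    have : ((j.toNat : ℕ) : ℤ) = j := Int.toNat_of_nonneg hj0
    exact_mod_cast congrArg (Int.cast : ℤ → ℝ) this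
  have hlt : j.toNat < 2 ^ n := by
    have h3 : ((j.toNat : ℕ) : ℝ) < ((2 ^ n : ℕ) : ℝ) := by
      rw [hcast]; push_cast; nlinarith
    exact_mod_cast h3
  have hc := hω.2 n j.toNat hlt x ⟨(j:ℝ) / 2 ^ n, hmem⟩
    (by rw [hcast]; exact ⟨hjx, by rw [lt_div_iff₀ hp, mul_comm]; exact h2⟩)
    (by rw [hcast]; exact ⟨le_refl _, by apply div_lt_div_of_pos_right _ hp; linarith⟩)
  unfold arr
  rw [dif_pos hmem, hc]
  rcases hω.1 n ⟨(j:ℝ) / 2 ^ n, hmem⟩ with h | h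
  · rw [h]; simp
  · rw [h]; norm_num

theorem phi_pow (n : ℕ) : φ ((2:ℝ) ^ n * 1) = 0 := by
  unfold φ
  have : (2:ℝ) ^ n * 1 = ((2 ^ n : ℤ) : ℝ) := by push_cast; ring
  rw [this, round_intCast]
  simp

theorem eq_tak (ω : ℕ → Icc (0:ℝ) 1 → ℝ) (hω : IsDyadicSigns ω) (f : Icc (0:ℝ) 1 → ℝ)
    (hf : ∀ x : Icc (0:ℝ) 1,
      HasSum (fun n : ℕ => ((2:ℝ) ^ n)⁻¹ * ω n x * φ ((2:ℝ) ^ n * x)) (f x))
    (x : Icc (0:ℝ) 1) : f x = R109.GT.tak (arr ω) x := by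
  rw [← (hf x).tsum_eq]
  unfold R109.GT.tak
  apply tsum_congr
  intro n
  rcases lt_or_eq_of_le x.2.2 with hx | hx
  · rw [arr_eq ω hω n x hx]
    unfold φ R109.GT.phi
    field_simp
  · have h0 := phi_pow n
    have h1 : R109.GT.phi ((2:ℝ) ^ n * 1) = 0 := h0
    rw [hx, h0, h1]
    simp

/-- For every `f ∈ 𝒯_v`, the level set `{x ∈ [0,1] : f(x) = y}` is finite for Lebesgue-almost
every `y ∈ ℝ`. -/
theorem result (f : Icc (0:ℝ) 1 → ℝ) (hf : f ∈ Tv) :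
    ∀ᵐ y ∂(volume : Measure ℝ), {x : Icc (0:ℝ) 1 | f x = y}.Finite := by
  obtain ⟨ω, hω, hs⟩ := hf
  have h := R109.GT.ae_finite (arr ω) (arr_sgn ω) (H516.GTQ1.null (arr ω) (arr_sgn ω))
  filter_upwards [h] with y hy
  have hpre := hy.preimage (f := (Subtype.val : Icc (0:ℝ) 1 → ℝ)) Subtype.val_injective.injOn
  refine hpre.subset ?_
  intro x hx
  have hx' : f x = y := hx
  exact ⟨x.2, by rw [← eq_tak ω hω f hs x, hx']⟩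

end Pool.Agent.Results.MP_cc494f_an.AeFiniteLevelSets
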